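import Mathlib
import Pool.Agent.Lib.helper32.SQL

set_option autoImplicit false

namespace Pool.Agent.Results.MP_a1e9e0_gt.Example

open Pool.Agent.Lib.helper32.SQL
open scoped Cardinal

theorem result : ∃ (X : Type) (_ : TopologicalSpace X), T2Space X ∧ StrictQuasiLindelof X ∧
    ℵ₀ < pwLc X := by
  refine ⟨X, inferInstance, inferInstance, sel ℕ, ?_⟩
  by_contra hc
  have h0 : #(Set X) ∈ {κ : Cardinal.{0} | ∀ ι : Type, Sel X ι κ} := fun ι F _ U _ h =>
    ⟨U, fun i => ⟨subset_rfl, Cardinal.mk_set_le _⟩,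
      h.trans (Set.iUnion_mono fun i => subset_closure)⟩
  refine not_sel fun F hF U hU h => ?_
  obtain ⟨V, h1, h2⟩ := csInf_mem ⟨_, h0⟩ J F hF U hU h
  exact ⟨V, fun i => ⟨(h1 i).1, (h1 i).2.trans (not_lt.1 hc)⟩, h2⟩

end Pool.Agent.Results.MP_a1e9e0_gt.Example
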